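import Pool.Agent.H742.LC.Stm

/-! The reduction. -/

set_option autoImplicit false

noncomputable section

namespace Pool.Agent.H742.LC

namespace MAIN

open TopologicalSpace

lemma countable_quot {A : Type} [Group A] [TopologicalSpace A] [IsTopologicalGroup A]
    [SecondCountableTopology A] (K : Subgroup A) (hK : IsOpen (K : Set A)) : Countable (A ⧸ K) := by
  have : DiscreteTopology (A ⧸ K) := QuotientGroup.discreteTopology hK
  have : SeparableSpace (A ⧸ K) := by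
    obtain ⟨s, hs, hd⟩ := TopologicalSpace.exists_countable_dense A
    exact ⟨⟨_, hs.image (QuotientGroup.mk : A → A ⧸ K),
      (QuotientGroup.mk_surjective (s := K)).denseRange.dense_image
        (QuotientGroup.continuous_mk) hd⟩⟩
  exact separableSpace_iff_countable.1 inferInstance

variable {G : Type} [Group G]

lemma map_le_Nm (N : Subgroup G) (K : Subgroup N) : K.map N.subtype ≤ Nm N K := by
  intro g hg x
  constructor
  · intro hx
    exact mul_mem (mul_mem hg hx) (inv_mem hg)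
  · intro hx
    have h := mul_mem (mul_mem (inv_mem hg) hx) hg
    have e : g⁻¹ * (g * x * g⁻¹) * g = x := by group
    rwa [e] at h

lemma normal_K' (N : Subgroup G) (K : Subgroup N) :
    ((K.map N.subtype).subgroupOf (Nm N K)).Normal := by
  refine ⟨fun n hn g => ?_⟩
  rw [Subgroup.mem_subgroupOf] at hn ⊢
  exact (g.2 n).1 hn

end MAIN

open MAIN TopologicalSpace in
theorem t_MAIN : S_OPEN → S_POLQ → S_MAIN := by
  intro hOPEN hPOLQ G _ _ _ _ N K hN hCO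
  have hopen : IsOpen (Nm N K : Set G) := hOPEN G N K hN hCO
  obtain ⟨τ, h1, h2, h3, h4, h5⟩ := hCO
  have := hN
  have hNK : Countable (N ⧸ K) := @countable_quot N _ τ h1 h2 K h5
  have hLc : IsCompact ((K.map N.subtype : Subgroup G) : Set G) := by
    have h := @IsCompact.image N G τ _ _ _ h4 h3
    exact h
  obtain ⟨G₀, hG₀⟩ : ∃ G₀ : Subgroup G, G₀ = Nm N K := ⟨_, rfl⟩
  have hLG : K.map N.subtype ≤ G₀ := by
    rw [hG₀]
    exact map_le_Nm N K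
  have hK'n : ((K.map N.subtype).subgroupOf G₀).Normal := by
    rw [hG₀]
    exact normal_K' N K
  rw [← hG₀] at hopen
  have : PolishSpace G₀ := hopen.polishSpace
  have hK'c : IsCompact (((K.map N.subtype).subgroupOf G₀ : Subgroup G₀) : Set G₀) := by
    rw [Topology.IsInducing.subtypeVal.isCompact_iff]
    have e : (Subtype.val : G₀ → G) '' (((K.map N.subtype).subgroupOf G₀ : Subgroup G₀) : Set G₀) =
        ((K.map N.subtype : Subgroup G) : Set G) := by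
      ext x
      constructor
      · rintro ⟨y, hy, rfl⟩
        exact hy
      · intro hx
        exact ⟨⟨x, hLG hx⟩, hx, rfl⟩
    have h := hLc
    rw [← e] at h
    exact h
  have hQ : PolishSpace (G₀ ⧸ (K.map N.subtype).subgroupOf G₀) := hPOLQ G₀ _ hK'c
  -- the open subgroup generated by `N` and `G₀`
  have hPo : IsOpen ((N ⊔ G₀ : Subgroup G) : Set G) :=
    Subgroup.isOpen_mono le_sup_right hopen
  have : DiscreteTopology (G ⧸ G₀) := QuotientGroup.discreteTopology hopen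
  have hPc : Countable (G ⧸ (N ⊔ G₀)) := countable_quot _ hPo
  obtain ⟨code, hcode⟩ := exists_injective_nat (G ⧸ (N ⊔ G₀))
  have hP : ∀ x : G, ∃ n ∈ N, n⁻¹ * ((x : G ⧸ (N ⊔ G₀)).out)⁻¹ * x ∈ G₀ := by
    intro x
    obtain ⟨p, hp⟩ := QuotientGroup.mk_out_eq_mul (N ⊔ G₀) x
    obtain ⟨n, hn, g, hg, e⟩ := Subgroup.mem_sup_of_normal_left.1 (inv_mem p.2)
    refine ⟨n, hn, ?_⟩
    rw [hp]
    have e2 : n⁻¹ * (x * (p : G))⁻¹ * x = n⁻¹ * (p : G)⁻¹ := by group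
    rw [e2, ← e]
    simpa using hg
  choose nn hnn1 hnn2 using fun γ : G ⧸ G₀ => hP γ.out
  obtain ⟨Dd, hDd⟩ : ∃ Dd : G ⧸ G₀ → G, Dd = fun γ => ((γ.out : G) : G ⧸ (N ⊔ G₀)).out :=
    ⟨_, rfl⟩
  obtain ⟨F, hF⟩ : ∃ F : G ⧸ G₀ → G, F = fun γ => (nn γ)⁻¹ * (Dd γ)⁻¹ := ⟨_, rfl⟩
  have hmk : ∀ x : G, (((x : G ⧸ G₀).out : G) : G ⧸ (N ⊔ G₀)) = (x : G ⧸ (N ⊔ G₀)) := by
    intro x
    obtain ⟨p, hp⟩ := QuotientGroup.mk_out_eq_mul G₀ x
    rw [hp]
    exact QuotientGroup.mk_mul_of_mem x ((le_sup_right : G₀ ≤ N ⊔ G₀) p.2)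
  have hFx : ∀ x : G, F (x : G ⧸ G₀) * x ∈ G₀ := by
    intro x
    obtain ⟨p, hp⟩ := QuotientGroup.mk_out_eq_mul G₀ x
    have h := hnn2 (x : G ⧸ G₀)
    have e : F (x : G ⧸ G₀) * x = (F (x : G ⧸ G₀) * (x : G ⧸ G₀).out) * (p : G)⁻¹ := by
      rw [hp]
      group
    rw [e]
    refine mul_mem ?_ (inv_mem p.2)
    rw [hF, hDd]
    exact h
  have hDx : ∀ x : G, Dd (x : G ⧸ G₀) = (x : G ⧸ (N ⊔ G₀)).out := by
    intro x
    rw [hDd]
    show (((x : G ⧸ G₀).out : G) : G ⧸ (N ⊔ G₀)).out = _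
    rw [hmk]
  obtain ⟨E, hE⟩ : ∃ E : G ⧸ G₀ → Multiplicative ℤ,
      E = fun γ => Multiplicative.ofAdd ((code ((γ.out : G) : G ⧸ (N ⊔ G₀)) : ℕ) : ℤ) := ⟨_, rfl⟩
  have hEx : ∀ x y : G, E (x : G ⧸ G₀) = E (y : G ⧸ G₀) ↔
      (x : G ⧸ (N ⊔ G₀)) = (y : G ⧸ (N ⊔ G₀)) := by
    intro x y
    rw [hE]
    show Multiplicative.ofAdd ((code (((x : G ⧸ G₀).out : G) : G ⧸ (N ⊔ G₀)) : ℕ) : ℤ) =
      Multiplicative.ofAdd ((code (((y : G ⧸ G₀).out : G) : G ⧸ (N ⊔ G₀)) : ℕ) : ℤ) ↔ _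
    rw [hmk, hmk, Multiplicative.ofAdd.injective.eq_iff, Nat.cast_inj, hcode.eq_iff]
  -- the key computation
  have key : ∀ x y : G, (x : G ⧸ (N ⊔ G₀)) = (y : G ⧸ (N ⊔ G₀)) →
      (x⁻¹ * y ∈ N ↔ (F (x : G ⧸ G₀) * x)⁻¹ * (F (y : G ⧸ G₀) * y) ∈ N) := by
    intro x y hxy
    have hd : Dd (x : G ⧸ G₀) = Dd (y : G ⧸ G₀) := by rw [hDx, hDx, hxy]
    have e : (F (x : G ⧸ G₀) * x)⁻¹ * (F (y : G ⧸ G₀) * y) =
        ((x⁻¹ * Dd (x : G ⧸ G₀)) * (nn (x : G ⧸ G₀) * (nn (y : G ⧸ G₀))⁻¹) *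
          (x⁻¹ * Dd (x : G ⧸ G₀))⁻¹) * (x⁻¹ * y) := by
      rw [hF]
      show ((nn (x : G ⧸ G₀))⁻¹ * (Dd (x : G ⧸ G₀))⁻¹ * x)⁻¹ *
        ((nn (y : G ⧸ G₀))⁻¹ * (Dd (y : G ⧸ G₀))⁻¹ * y) = _
      rw [← hd]
      group
    rw [e]
    have hc := hN.conj_mem _ (mul_mem (hnn1 (x : G ⧸ G₀)) (inv_mem (hnn1 (y : G ⧸ G₀))))
      (x⁻¹ * Dd (x : G ⧸ G₀))
    exact (Subgroup.mul_mem_cancel_left N hc).symm
  obtain ⟨M₁, hM₁⟩ : ∃ M₁ : Subgroup (G₀ ⧸ (K.map N.subtype).subgroupOf G₀),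
      M₁ = (N.subgroupOf G₀).map (QuotientGroup.mk' ((K.map N.subtype).subgroupOf G₀)) :=
    ⟨_, rfl⟩
  have hM₁n : M₁.Normal := by
    rw [hM₁]
    exact Subgroup.Normal.map inferInstance _ (QuotientGroup.mk'_surjective _)
  have hmem : ∀ u : G₀, ((u : G₀ ⧸ (K.map N.subtype).subgroupOf G₀) ∈ M₁ ↔ (u : G) ∈ N) := by
    intro u
    rw [hM₁, Subgroup.mem_map]
    constructor
    · rintro ⟨w, hw, hwu⟩
      have h6 : w⁻¹ * u ∈ (K.map N.subtype).subgroupOf G₀ := QuotientGroup.eq.1 hwu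
      rw [Subgroup.mem_subgroupOf] at h6 hw
      obtain ⟨k, _, hk⟩ := h6
      have h7 : ((w⁻¹ * u : G₀) : G) ∈ N := by
        rw [← hk]
        exact k.2
      have h8 := mul_mem hw h7
      have e : (w : G) * ((w⁻¹ * u : G₀) : G) = u := by
        push_cast
        group
      rwa [e] at h8
    · intro hu
      exact ⟨u, hu, rfl⟩
  have hM₁c : Countable M₁ := by
    have hex : ∀ m : M₁, ∃ u : G₀, (u : G) ∈ N ∧
        (u : G₀ ⧸ (K.map N.subtype).subgroupOf G₀) = m := by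
      rintro ⟨m, hm⟩
      obtain ⟨u, rfl⟩ := QuotientGroup.mk_surjective m
      exact ⟨u, (hmem u).1 hm, rfl⟩
    choose rep hr1 hr2 using hex
    refine Function.Injective.countable
      (f := fun m : M₁ => ((⟨(rep m : G), hr1 m⟩ : N) : N ⧸ K)) ?_
    intro m m' hmm
    have h6 : (⟨(rep m : G), hr1 m⟩ : N)⁻¹ * ⟨(rep m' : G), hr1 m'⟩ ∈ K := QuotientGroup.eq.1 hmm
    refine Subtype.ext ?_
    rw [← hr2 m, ← hr2 m']
    refine QuotientGroup.eq.2 ?_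
    rw [Subgroup.mem_subgroupOf]
    exact ⟨_, h6, rfl⟩
  refine ⟨(G₀ ⧸ (K.map N.subtype).subgroupOf G₀) × Multiplicative ℤ, inferInstance, inferInstance,
    M₁.prod ⊥, fun x => (((⟨F (x : G ⧸ G₀) * x, hFx x⟩ : G₀) :
      G₀ ⧸ (K.map N.subtype).subgroupOf G₀), E (x : G ⧸ G₀)), inferInstance, inferInstance,
      inferInstance, ?_, ?_, ?_⟩
  · refine Function.Injective.countable (f := fun m : (M₁.prod (⊥ : Subgroup (Multiplicative ℤ))) =>
      (⟨m.1.1, (Subgroup.mem_prod.1 m.2).1⟩ : M₁)) ?_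
    intro m m' hmm
    refine Subtype.ext (Prod.ext (congrArg Subtype.val hmm) ?_)
    rw [Subgroup.mem_bot.1 (Subgroup.mem_prod.1 m.2).2, Subgroup.mem_bot.1 (Subgroup.mem_prod.1 m'.2).2]
  · refine Continuous.prodMk ?_ ?_
    · refine QuotientGroup.continuous_mk.comp (Continuous.subtype_mk ?_ _)
      exact ((continuous_of_discreteTopology (f := F)).comp QuotientGroup.continuous_mk).mul
        continuous_id
    · exact (continuous_of_discreteTopology (f := E)).comp QuotientGroup.continuous_mk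
  · intro x y
    rw [Subgroup.mem_prod, Subgroup.mem_bot]
    show x⁻¹ * y ∈ N ↔ (((⟨F (x : G ⧸ G₀) * x, hFx x⟩ : G₀)⁻¹ *
      (⟨F (y : G ⧸ G₀) * y, hFx y⟩ : G₀) : G₀) : G₀ ⧸ (K.map N.subtype).subgroupOf G₀) ∈ M₁ ∧
      (E (x : G ⧸ G₀))⁻¹ * E (y : G ⧸ G₀) = 1
    rw [hmem, inv_mul_eq_one, hEx]
    constructor
    · intro h
      have hxy : (x : G ⧸ (N ⊔ G₀)) = (y : G ⧸ (N ⊔ G₀)) :=
        QuotientGroup.eq.2 ((le_sup_left : N ≤ N ⊔ G₀) h)
      exact ⟨(key x y hxy).1 h, hxy⟩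
    · rintro ⟨h, hxy⟩
      exact (key x y hxy).2 h

end Pool.Agent.H742.LC
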