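import Pool.Agent.H742.LC.Stm

/-!
# Quotients of Polish groups by compact normal subgroups are Polish
-/

set_option autoImplicit false

noncomputable section

namespace Pool.Agent.H742.LC

open TopologicalSpace Metric Filter Topology

namespace POLQ

variable {G : Type} [Group G]

section

variable [MetricSpace G] [IsTopologicalGroup G]

/-- the coset as a nonempty compact set -/
def cs (K : Subgroup G) (hK : IsCompact (K : Set G)) (g : G) : NonemptyCompacts G :=
  ⟨⟨(fun k => g * k) '' (K : Set G), hK.image (continuous_const_mul g)⟩,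
    ⟨g * 1, 1, K.one_mem, rfl⟩⟩

theorem mem_cs (K : Subgroup G) (hK : IsCompact (K : Set G)) (g x : G) :
    x ∈ (cs K hK g : Set G) ↔ ∃ k ∈ K, g * k = x := Iff.rfl

theorem continuous_cs (K : Subgroup G) (hK : IsCompact (K : Set G)) : Continuous (cs K hK) := by
  rw [continuous_iff_continuousAt]
  intro g
  rw [ContinuousAt, Metric.tendsto_nhds]
  intro ε hε
  have h1 : ∀ᶠ h in 𝓝 g, ∀ k ∈ (K : Set G), dist (h * k) (g * k) < ε / 2 := by
    refine hK.eventually_forall_of_forall_eventually fun k _ => ?_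
    have hc : ContinuousAt (fun z : G × G => dist (z.1 * z.2) (g * z.2)) (g, k) := by
      fun_prop
    have h0 : dist (g * k) (g * k) < ε / 2 := by
      rw [dist_self]
      positivity
    exact hc.eventually (gt_mem_nhds h0)
  filter_upwards [h1] with h hh
  rw [NonemptyCompacts.dist_eq]
  refine lt_of_le_of_lt (hausdorffDist_le_of_mem_dist (by positivity : (0 : ℝ) ≤ ε / 2) ?_ ?_)
    (by linarith)
  · intro x hx
    obtain ⟨k, hk, rfl⟩ := (mem_cs K hK h x).1 hx
    exact ⟨g * k, (mem_cs K hK g _).2 ⟨k, hk, rfl⟩, (hh k hk).le⟩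
  · intro x hx
    obtain ⟨k, hk, rfl⟩ := (mem_cs K hK g x).1 hx
    exact ⟨h * k, (mem_cs K hK h _).2 ⟨k, hk, rfl⟩, by rw [dist_comm]; exact (hh k hk).le⟩

theorem cs_eq (K : Subgroup G) (hK : IsCompact (K : Set G)) (g h : G) (hgh : g⁻¹ * h ∈ K) :
    cs K hK g = cs K hK h := by
  apply SetLike.coe_injective
  ext x
  rw [mem_cs, mem_cs]
  constructor
  · rintro ⟨k, hk, rfl⟩
    refine ⟨(g⁻¹ * h)⁻¹ * k, K.mul_mem (K.inv_mem hgh) hk, ?_⟩
    group
  · rintro ⟨k, hk, rfl⟩
    refine ⟨(g⁻¹ * h) * k, K.mul_mem hgh hk, ?_⟩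
    group

theorem cs_inj (K : Subgroup G) (hK : IsCompact (K : Set G)) (g h : G)
    (hgh : cs K hK g = cs K hK h) : g⁻¹ * h ∈ K := by
  have h1 : h ∈ (cs K hK h : Set G) := (mem_cs K hK h h).2 ⟨1, K.one_mem, mul_one h⟩
  rw [← hgh, mem_cs] at h1
  obtain ⟨k, hk, rfl⟩ := h1
  rw [inv_mul_cancel_left]
  exact hk

/-- the map on the quotient -/
def Phi (K : Subgroup G) (hK : IsCompact (K : Set G)) : G ⧸ K → NonemptyCompacts G :=
  Quotient.lift (cs K hK) fun a b hab => cs_eq K hK a b (QuotientGroup.leftRel_apply.1 hab)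

theorem Phi_mk (K : Subgroup G) (hK : IsCompact (K : Set G)) (g : G) :
    Phi K hK (QuotientGroup.mk g) = cs K hK g := rfl

theorem continuous_Phi (K : Subgroup G) (hK : IsCompact (K : Set G)) : Continuous (Phi K hK) :=
  (continuous_cs K hK).quotient_lift _

theorem injective_Phi (K : Subgroup G) (hK : IsCompact (K : Set G)) :
    Function.Injective (Phi K hK) := by
  intro a b hab
  obtain ⟨g, rfl⟩ := QuotientGroup.mk_surjective a
  obtain ⟨h, rfl⟩ := QuotientGroup.mk_surjective b
  rw [Phi_mk, Phi_mk] at hab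
  exact QuotientGroup.eq.2 (cs_inj K hK g h hab)

theorem closed_Phi (K : Subgroup G) (hK : IsCompact (K : Set G)) : IsClosedMap (Phi K hK) := by
  intro C hC
  rw [← isSeqClosed_iff_isClosed]
  intro x A hx hA
  choose c hc hcx using hx
  obtain ⟨a, ha⟩ := A.nonempty
  have h0 : ∀ n : ℕ, ∃ g : G, (QuotientGroup.mk g : G ⧸ K) = c n ∧
      dist a g < dist (x n) A + 1 / ((n : ℝ) + 1) := by
    intro n
    obtain ⟨h, hh⟩ := QuotientGroup.mk_surjective (c n)
    have h1 : x n = cs K hK h := by rw [← hcx n, ← hh, Phi_mk]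
    have h2 : hausdorffDist (A : Set G) (cs K hK h : Set G) <
        dist (x n) A + 1 / ((n : ℝ) + 1) := by
      rw [← NonemptyCompacts.dist_eq, ← h1, dist_comm]
      have : (0 : ℝ) < 1 / ((n : ℝ) + 1) := by positivity
      linarith
    obtain ⟨y, hy, hd⟩ := exists_dist_lt_of_hausdorffDist_lt ha h2
      (hausdorffEDist_ne_top_of_nonempty_of_bounded A.nonempty (cs K hK h).nonempty
        A.isCompact.isBounded (cs K hK h).isCompact.isBounded)
    obtain ⟨k, hk, rfl⟩ := (mem_cs K hK h y).1 hy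
    exact ⟨h * k, (QuotientGroup.mk_mul_of_mem h hk).trans hh, hd⟩
  choose g hg1 hg2 using h0
  have hga : Tendsto g atTop (𝓝 a) := by
    rw [tendsto_iff_dist_tendsto_zero]
    have h1 : Tendsto (fun n : ℕ => dist (x n) A + 1 / ((n : ℝ) + 1)) atTop (𝓝 0) := by
      have h2 := (tendsto_iff_dist_tendsto_zero.1 hA).add tendsto_one_div_add_atTop_nhds_zero_nat
      rwa [add_zero] at h2
    refine squeeze_zero (fun n => dist_nonneg) (fun n => ?_) h1
    rw [dist_comm]
    exact (hg2 n).le
  have h1 : Tendsto (fun n => Phi K hK (QuotientGroup.mk (g n))) atTop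
      (𝓝 (Phi K hK (QuotientGroup.mk a))) :=
    (((continuous_Phi K hK).comp continuous_quotient_mk').tendsto a).comp hga
  have h2 : (fun n => Phi K hK (QuotientGroup.mk (g n))) = x :=
    funext fun n => by rw [hg1, hcx]
  rw [h2] at h1
  have h3 : A = Phi K hK (QuotientGroup.mk a) := tendsto_nhds_unique hA h1
  have h4 : (QuotientGroup.mk a : G ⧸ K) ∈ C := by
    refine hC.mem_of_tendsto (b := atTop) (f := fun n => (QuotientGroup.mk (g n) : G ⧸ K))
      ((continuous_quotient_mk'.tendsto a).comp hga) (Eventually.of_forall fun n => ?_)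
    show (QuotientGroup.mk (g n) : G ⧸ K) ∈ C
    rw [hg1]
    exact hc n
  exact ⟨_, h4, h3.symm⟩

theorem polish [CompleteSpace G] [SecondCountableTopology G] (K : Subgroup G)
    (hK : IsCompact (K : Set G)) : PolishSpace (G ⧸ K) :=
  (IsClosedEmbedding.of_continuous_injective_isClosedMap (continuous_Phi K hK)
    (injective_Phi K hK) (closed_Phi K hK)).polishSpace

end

end POLQ

theorem t_POLQ : S_POLQ := by
  intro G _ _ _ _ K _ hK
  letI := TopologicalSpace.upgradeIsCompletelyMetrizable G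
  exact POLQ.polish K hK

end Pool.Agent.H742.LC
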