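import Pool.Agent.H742.LC.Stm2

/-! S_QP (written by helper799): quotients of Polish groups by closed normal subgroups are Polish. -/

set_option autoImplicit false
set_option linter.style.haveILetI false
set_option linter.unusedSectionVars false

noncomputable section

namespace Pool.Agent.H742.LC

namespace QP

open Set Filter Topology TopologicalSpace

theorem polish_of_Gdelta {Y : Type*} [TopologicalSpace Y] [PolishSpace Y] {s : Set Y}
    (hs : IsGδ s) : PolishSpace s := by
  obtain ⟨U, hU, rfl⟩ := hs.eq_iInter_nat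
  haveI : ∀ n, PolishSpace (U n) := fun n => (hU n).polishSpace
  let f : (⋂ n, U n : Set Y) → ∀ n, U n := fun x n => ⟨x, Set.mem_iInter.1 x.2 n⟩
  have hfc : Continuous f := continuous_pi (fun n => Continuous.subtype_mk continuous_subtype_val _)
  have hg : Continuous (fun p : ∀ n, U n => (p 0 : Y)) :=
    continuous_subtype_val.comp (continuous_apply 0)
  have hind : Topology.IsInducing f := by
    apply Topology.IsInducing.of_comp hfc hg
    exact Topology.IsInducing.subtypeVal
  have hinj : Function.Injective f := by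
    intro x y hxy
    have h1 := congrFun hxy 0
    have h2 : ((f x 0 : U 0) : Y) = ((f y 0 : U 0) : Y) := congrArg (fun z : U 0 => (z : Y)) h1
    exact Subtype.ext h2
  have hrange : Set.range f = ⋂ n, {p : ∀ n, U n | (p n : Y) = (p 0 : Y)} := by
    ext p
    simp only [Set.mem_range, Set.mem_iInter]
    constructor
    · rintro ⟨x, rfl⟩ n
      rfl
    · intro h
      refine ⟨⟨p 0, Set.mem_iInter.2 (fun n => ?_)⟩, ?_⟩
      · have h2 : (p n : Y) = (p 0 : Y) := h n
        rw [← h2]
        exact (p n).2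
      · funext n
        have h2 : (p n : Y) = (p 0 : Y) := h n
        exact Subtype.ext h2.symm
  have hcl : IsClosed (Set.range f) := by
    rw [hrange]
    apply isClosed_iInter
    intro n
    exact isClosed_eq (continuous_subtype_val.comp (continuous_apply n)) hg
  exact Topology.IsClosedEmbedding.polishSpace (f := f) ⟨⟨hind, hinj⟩, hcl⟩

section
variable {X Y Z : Type*} [MetricSpace X] [TopologicalSpace Y] [MetricSpace Z]

/-- the largest open set of `Z` which cuts `Y` in a part of `f '' B` -/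
def st (f : X → Y) (e : Y → Z) (B : Set X) : Set Z := (closure (e '' (f '' B)ᶜ))ᶜ

/-- `B` is small -/
def sm (n : ℕ) (B : Set X) : Prop := ∀ a ∈ B, ∀ b ∈ B, dist a b ≤ (1 / 2 : ℝ) ^ n

theorem isOpen_st (f : X → Y) (e : Y → Z) (B : Set X) : IsOpen (st f e B) :=
  isClosed_closure.isOpen_compl

theorem st_mem (f : X → Y) (e : Y → Z) (he : IsEmbedding e) (ho : IsOpenMap f) (B : Set X)
    (hB : IsOpen B) (y : Y) (hy : y ∈ f '' B) : e y ∈ st f e B := by
  obtain ⟨W, hW, hWe⟩ := he.isInducing.isOpen_iff.mp (ho B hB)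
  intro hcl
  have hyW : e y ∈ W := by
    have : y ∈ e ⁻¹' W := by rw [hWe]; exact hy
    exact this
  obtain ⟨z, hzW, u, hu, rfl⟩ := mem_closure_iff.mp hcl W hW hyW
  have : u ∈ e ⁻¹' W := hzW
  rw [hWe] at this
  exact hu this

theorem mem_st (f : X → Y) (e : Y → Z) (B : Set X) (y : Y) (hy : e y ∈ st f e B) : y ∈ f '' B := by
  by_contra hc
  exact hy (subset_closure ⟨y, hc, rfl⟩)

/-- the union of the `st B'` over the small parts `B'` of `B` -/
def Ob (f : X → Y) (e : Y → Z) (BB : Set (Set X)) (B : Set X) (n : ℕ) : Set Z :=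
  ⋃ B' ∈ {B' : Set X | B' ∈ BB ∧ B' ⊆ B ∧ sm n B'}, st f e B'

/-- the `G_δ` set -/
def Rr (f : X → Y) (e : Y → Z) (BB : Set (Set X)) : Set Z :=
  ⋂ B ∈ insert univ BB, ⋂ n : ℕ, ((st f e B)ᶜ ∪ Ob f e BB B n)

theorem gd (f : X → Y) (e : Y → Z) (BB : Set (Set X)) (hc : BB.Countable) : IsGδ (Rr f e BB) := by
  unfold Rr
  refine IsGδ.biInter (hc.insert univ) fun B _ => IsGδ.iInter fun n => ?_
  refine IsGδ.union ?_ ?_
  · exact ((isOpen_st f e B).isClosed_compl).isGδ
  · exact (isOpen_biUnion fun B' _ => isOpen_st f e B').isGδ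

theorem range_sub (f : X → Y) (e : Y → Z) (he : IsEmbedding e) (ho : IsOpenMap f)
    (BB : Set (Set X)) (hb : IsTopologicalBasis BB) : range e ⊆ Rr f e BB := by
  rintro _ ⟨y, rfl⟩
  unfold Rr
  rw [mem_iInter₂]
  intro B hB
  have hBo : IsOpen B := by
    rcases hB with rfl | hB
    · exact isOpen_univ
    · exact hb.isOpen hB
  rw [mem_iInter]
  intro n
  by_cases hy : e y ∈ st f e B
  · right
    obtain ⟨x, hx, rfl⟩ := mem_st f e B y hy
    have hp : (0 : ℝ) < (1 / 2) ^ (n + 1) := by positivity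
    have hN : B ∩ Metric.ball x ((1 / 2) ^ (n + 1)) ∈ 𝓝 x :=
      inter_mem (hBo.mem_nhds hx) (Metric.ball_mem_nhds x hp)
    obtain ⟨B', hB', hxB', hsub⟩ := hb.mem_nhds_iff.mp hN
    unfold Ob
    rw [mem_iUnion₂]
    refine ⟨B', ⟨hB', fun a ha => (hsub ha).1, fun a ha b hb' => ?_⟩,
      st_mem f e he ho B' (hb.isOpen hB') _ ⟨x, hxB', rfl⟩⟩
    have h1 : dist a x < (1 / 2) ^ (n + 1) := (hsub ha).2
    have h2 : dist b x < (1 / 2) ^ (n + 1) := (hsub hb').2
    have h3 := dist_triangle_right a b x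
    rw [pow_succ] at h1 h2
    linarith
  · left
    exact hy

theorem sub_range [CompleteSpace X] (f : X → Y) (e : Y → Z) (he : IsEmbedding e)
    (hd : DenseRange e) (hf : Continuous f) (hs : Function.Surjective f)
    (BB : Set (Set X)) : Rr f e BB ⊆ range e := by
  intro z hz
  have hz' : ∀ B ∈ insert univ BB, ∀ n : ℕ, z ∈ st f e B → ∃ B' ∈ BB, B' ⊆ B ∧ sm n B' ∧ z ∈ st f e B' := by
    intro B hB n hzB
    have h1 := mem_iInter.mp (mem_iInter₂.mp hz B hB) n
    rcases h1 with h1 | h1
    · exact absurd hzB h1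
    · obtain ⟨B', ⟨h2, h3, h4⟩, h5⟩ := mem_iUnion₂.mp h1
      exact ⟨B', h2, h3, h4, h5⟩
  have hstep : ∀ (n : ℕ) (B : {B : Set X // B ∈ insert univ BB ∧ z ∈ st f e B}),
      ∃ B' : {B : Set X // B ∈ insert univ BB ∧ z ∈ st f e B}, B'.1 ⊆ B.1 ∧ sm n B'.1 := by
    intro n B
    obtain ⟨B', h1, h2, h3, h4⟩ := hz' B.1 B.2.1 n B.2.2
    exact ⟨⟨B', mem_insert_of_mem _ h1, h4⟩, h2, h3⟩
  choose g hg1 hg2 using hstep
  have hz0 : z ∈ st f e univ := by
    unfold st
    rw [image_univ, hs.range_eq, compl_univ, image_empty, closure_empty, compl_empty]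
    exact mem_univ z
  let s : ℕ → {B : Set X // B ∈ insert univ BB ∧ z ∈ st f e B} :=
    fun n => Nat.rec ⟨univ, mem_insert _ _, hz0⟩ (fun n B => g n B) n
  have hs1 : ∀ n, (s (n + 1)).1 ⊆ (s n).1 := fun n => hg1 n (s n)
  have hs2 : ∀ n, sm n (s (n + 1)).1 := fun n => hg2 n (s n)
  have hanti : Antitone fun n => (s n).1 := antitone_nat_of_succ_le hs1
  have hpt : ∀ k : ℕ, ∃ x ∈ (s k).1, dist (e (f x)) z < 1 / ((k : ℝ) + 1) := by
    intro k
    have hk : (0 : ℝ) < 1 / ((k : ℝ) + 1) := by positivity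
    have hopen : IsOpen (Metric.ball z (1 / ((k : ℝ) + 1)) ∩ st f e (s k).1) :=
      Metric.isOpen_ball.inter (isOpen_st f e _)
    obtain ⟨y, hy⟩ := hd.exists_mem_open hopen ⟨z, Metric.mem_ball_self hk, (s k).2.2⟩
    obtain ⟨x, hx, hxy⟩ := mem_st f e _ y hy.2
    refine ⟨x, hx, ?_⟩
    rw [hxy]
    exact hy.1
  choose x hx1 hx2 using hpt
  have hcau : CauchySeq (fun k => x (k + 1)) := by
    refine cauchySeq_of_le_tendsto_0' (fun n => (1 / 2 : ℝ) ^ n) (fun n m hnm => ?_) ?_
    · exact hs2 n _ (hx1 (n + 1)) _ (hanti (Nat.succ_le_succ hnm) (hx1 (m + 1)))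
    · exact tendsto_pow_atTop_nhds_zero_of_lt_one (by norm_num) (by norm_num)
  obtain ⟨a, ha⟩ := cauchySeq_tendsto_of_complete hcau
  have h1 : Tendsto (fun k => e (f (x (k + 1)))) atTop (𝓝 (e (f a))) :=
    ((he.continuous.comp hf).tendsto a).comp ha
  have h2 : Tendsto (fun k => e (f (x k))) atTop (𝓝 z) := by
    rw [tendsto_iff_dist_tendsto_zero]
    refine squeeze_zero (fun _ => dist_nonneg) (fun k => (hx2 k).le) tendsto_one_div_add_atTop_nhds_zero_nat
  exact ⟨f a, tendsto_nhds_unique h1 (h2.comp (tendsto_add_atTop_nat 1))⟩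

end

theorem open_image {X Y : Type*} [TopologicalSpace X] [PolishSpace X] [TopologicalSpace Y]
    [SecondCountableTopology Y] [MetrizableSpace Y] (f : X → Y) (hf : Continuous f)
    (ho : IsOpenMap f) (hs : Function.Surjective f) : PolishSpace Y := by
  letI := upgradeIsCompletelyMetrizable X
  letI := metrizableSpaceMetric Y
  let Z := UniformSpace.Completion Y
  let e : Y → Z := fun y => (y : UniformSpace.Completion Y)
  have he : IsEmbedding e := (UniformSpace.Completion.isUniformEmbedding_coe Y).isEmbedding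
  have hd : DenseRange e := UniformSpace.Completion.denseRange_coe
  have hR : range e = Rr f e (countableBasis X) := by
    refine subset_antisymm (range_sub f e he ho _ (isBasis_countableBasis X)) ?_
    exact sub_range f e he hd hf hs _
  have hG : IsGδ (range e) := by
    rw [hR]
    exact gd f e _ (countable_countableBasis X)
  haveI : PolishSpace Z := inferInstance
  haveI : PolishSpace (range e) := polish_of_Gdelta hG
  have hh : IsClosedEmbedding (fun y => (⟨e y, mem_range_self y⟩ : range e)) := by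
    refine ⟨he.codRestrict (range e) mem_range_self, ?_⟩
    have : range (fun y => (⟨e y, mem_range_self y⟩ : range e)) = univ := by
      rw [eq_univ_iff_forall]
      rintro ⟨_, y, rfl⟩
      exact ⟨y, rfl⟩
    rw [this]
    exact isClosed_univ
  exact hh.polishSpace

end QP

theorem t_QP : S_QP := by
  intro G _ _ _ _ C _ hC
  haveI : IsClosed (C : Set G) := hC
  haveI : T3Space (G ⧸ C) := inferInstance
  haveI : SecondCountableTopology (G ⧸ C) := inferInstance
  haveI : TopologicalSpace.MetrizableSpace (G ⧸ C) := inferInstance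
  exact QP.open_image (fun g : G => (g : G ⧸ C)) QuotientGroup.continuous_mk
    QuotientGroup.isOpenMap_coe QuotientGroup.mk_surjective

end Pool.Agent.H742.LC
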