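import Pool.Agent.H742.LC.Stm2

/-!
# From compact open to compact modulo a closed normal subgroup (helper880 for helper742)
-/

set_option autoImplicit false

noncomputable section

namespace Pool.Agent.H742.LC

namespace TR

/-- the group topology pushed forward by a surjective homomorphism -/
theorem push {A B : Type} [Group A] [Group B] (φ : A →* B) (hφ : Function.Surjective φ)
    (τ : TopologicalSpace A) (hτ : @IsTopologicalGroup A τ _) (h2 : @SecondCountableTopology A τ) :
    ∃ σ : TopologicalSpace B, @IsTopologicalGroup B σ _ ∧ @SecondCountableTopology B σ ∧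
      @IsOpenQuotientMap A B τ σ φ := by
  let : TopologicalSpace A := τ
  let σ : TopologicalSpace B := TopologicalSpace.coinduced φ τ
  have : IsTopologicalGroup A := hτ
  have : SecondCountableTopology A := h2
  have hq : Topology.IsQuotientMap φ := ⟨⟨rfl⟩, hφ⟩
  have ho : IsOpenQuotientMap φ := MonoidHom.isOpenQuotientMap_of_isQuotientMap hq
  refine ⟨σ, ?_, ?_, ho⟩
  · refine @IsTopologicalGroup.mk B σ _ ?_ ?_
    · refine ⟨?_⟩
      rw [(ho.prodMap ho).isQuotientMap.continuous_iff]
      have h3 : ((fun p : B × B => p.1 * p.2) ∘ Prod.map φ φ) = fun p : A × A => φ (p.1 * p.2) := by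
        funext p
        simp
      rw [h3]
      exact ho.continuous.comp continuous_mul
    · refine ⟨?_⟩
      rw [ho.isQuotientMap.continuous_iff]
      have h3 : ((fun b : B => b⁻¹) ∘ φ) = fun a : A => φ a⁻¹ := by
        funext a
        simp
      rw [h3]
      exact ho.continuous.comp continuous_inv
  · exact ho.isQuotientMap.secondCountableTopology ho.isOpenMap

end TR

open TR in
theorem t_TR : S_QP → S_MAIN → S_MAIN2 := by
  intro hQP hMAIN G _ _ _ _ N C hN hC hCN hcl hmod
  have := hN
  have := hC
  obtain ⟨τ, hτg, hτ2, hτc, K, Q, hKo, hCK, hQ, hKQ⟩ := hmod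
  have : PolishSpace (G ⧸ C) := hQP G C hcl
  set f : G →* G ⧸ C := QuotientGroup.mk' C with hf
  have hfs : Function.Surjective f := QuotientGroup.mk'_surjective C
  have hmem : ∀ x : G, x ∈ N ↔ f x ∈ N.map f := by
    intro x
    constructor
    · exact fun h => ⟨x, h, rfl⟩
    · rintro ⟨y, hy, hxy⟩
      have h1 : y⁻¹ * x ∈ C := by
        rw [← QuotientGroup.eq]
        exact hxy
      have h2 := N.mul_mem hy (hCN h1)
      rwa [mul_inv_cancel_left] at h2
  have hN1 : (N.map f).Normal := hN.map f hfs
  set φ : N →* N.map f := f.subgroupMap N with hφ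
  have hφs : Function.Surjective φ := f.subgroupMap_surjective N
  obtain ⟨σ, hσg, hσ2, hσq⟩ := push φ hφs τ hτg hτ2
  have hCO : CompactOpen (N.map f) (K.map φ) := by
    refine ⟨σ, hσg, hσ2, ?_, ?_, ?_⟩
    · -- the inclusion is continuous
      let : TopologicalSpace N := τ
      let : TopologicalSpace (N.map f) := σ
      have h1 : Continuous fun x : N => f (x : G) :=
        (continuous_quot_mk : Continuous (QuotientGroup.mk : G → G ⧸ C)).comp hτc
      exact hσq.isQuotientMap.continuous_iff.2 h1
    · -- compactness
      let : TopologicalSpace N := τ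
      let : TopologicalSpace (N.map f) := σ
      have : IsTopologicalGroup N := hτg
      have hKc : IsClosed (K : Set N) := K.isClosed_of_isOpen hKo
      have h1 : ((K.map φ : Subgroup (N.map f)) : Set (N.map f)) = φ '' (Q ∩ K) := by
        ext z
        constructor
        · rintro ⟨x, hx, rfl⟩
          obtain ⟨c, hc, q, hq, hxq⟩ := hKQ x hx
          have hcK : c ∈ K := hCK c hc
          refine ⟨q, ⟨hq, ?_⟩, ?_⟩
          · have h3 : q = c⁻¹ * x := by rw [hxq, inv_mul_cancel_left]
            rw [h3]
            exact K.mul_mem (K.inv_mem hcK) hx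
          · rw [hxq, map_mul]
            have h4 : φ c = 1 := by
              apply Subtype.ext
              show f (c : G) = 1
              exact (QuotientGroup.eq_one_iff (c : G)).2 hc
            rw [h4, one_mul]
        · rintro ⟨q, ⟨-, hqK⟩, rfl⟩
          exact ⟨q, hqK, rfl⟩
      rw [h1]
      exact (hQ.inter_right hKc).image hσq.continuous
    · let : TopologicalSpace N := τ
      let : TopologicalSpace (N.map f) := σ
      have h1 : ((K.map φ : Subgroup (N.map f)) : Set (N.map f)) = φ '' (K : Set N) := rfl
      rw [h1]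
      exact hσq.isOpenMap _ hKo
  obtain ⟨H, iH, tH, M, h, h1, h2, h3, h4, h5, h6⟩ := hMAIN (G ⧸ C) (N.map f) (K.map φ) hN1 hCO
  refine ⟨H, iH, tH, M, fun x => h (f x), h1, h2, h3, h4, ?_, ?_⟩
  · exact h5.comp (continuous_quot_mk : Continuous (QuotientGroup.mk : G → G ⧸ C))
  · intro x y
    rw [hmem, ← h6, map_mul, map_inv]

end Pool.Agent.H742.LC

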