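import Pool.Agent.H742.LC.P_OPEN
import Pool.Agent.H742.LC.P_POLQ
import Pool.Agent.H742.LC.P_MAIN
import Pool.Agent.H742.LC.P_QP
import Pool.Agent.H742.LC.P_TR

set_option autoImplicit false

namespace Pool.Agent.H742.LC

theorem main2 : S_MAIN2 := t_TR t_QP (t_MAIN t_OPEN t_POLQ)

end Pool.Agent.H742.LC
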