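import Pool.Agent.H742.LC.Stm3

/-!
# Conjugations are continuous for the locally compact topology
-/

set_option autoImplicit false

noncomputable section

namespace Pool.Agent.H742.LC.CJ

open MeasureTheory MeasureTheory.Measure Filter Topology Set Function TopologicalSpace
open scoped Pointwise

/-- automatic continuity of measurable homomorphisms -/
theorem auto {N : Type} [Group N] [TopologicalSpace N] [IsTopologicalGroup N]
    [LocallyCompactSpace N] [SecondCountableTopology N] [T2Space N] [MeasurableSpace N]
    [BorelSpace N] (f : N →* N) (hf : Measurable f) : Continuous f := by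
  apply continuous_of_continuousAt_one f
  rw [ContinuousAt, map_one]
  intro U hU
  obtain ⟨V, hV1, hV2⟩ := exists_nhds_split_inv hU
  let K : PositiveCompacts N := Classical.arbitrary _
  let E : ℕ → Set N := fun k => {n | f n * (denseSeq N k)⁻¹ ∈ interior V}
  have hEm : ∀ k, MeasurableSet (E k) := by
    intro k
    have h1 : IsOpen {z : N | z * (denseSeq N k)⁻¹ ∈ interior V} :=
      isOpen_interior.preimage (continuous_id.mul continuous_const)
    exact hf h1.measurableSet
  have hcov : ⋃ k, E k = univ := by
    rw [eq_univ_iff_forall]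
    intro n
    have h1 : IsOpen {y : N | f n * y⁻¹ ∈ interior V} :=
      isOpen_interior.preimage (continuous_const.mul continuous_inv)
    obtain ⟨k, hk⟩ := (denseRange_denseSeq N).exists_mem_open h1 ⟨f n, by
      show f n * (f n)⁻¹ ∈ interior V
      rw [mul_inv_cancel]
      exact mem_interior_iff_mem_nhds.2 hV1⟩
    exact mem_iUnion.2 ⟨k, hk⟩
  obtain ⟨k, hk⟩ : ∃ k : ℕ, 0 < haar (interior (K : Set N) ∩ E k) := by
    by_contra! h
    simp_rw [nonpos_iff_eq_zero, ← measure_iUnion_null_iff, ← inter_iUnion, hcov,
      inter_univ] at h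
    exact h.not_gt (isOpen_interior.measure_pos _ K.interior_nonempty)
  have h2 := div_mem_nhds_one_of_haar_pos_ne_top haar _
    (isOpen_interior.measurableSet.inter (hEm k)) hk
    (mt (measure_mono_top (inter_subset_left.trans interior_subset)) K.isCompact.measure_ne_top)
  rw [mem_map]
  refine mem_of_superset h2 ?_
  rintro _ ⟨a, ha, b, hb, rfl⟩
  show f (a / b) ∈ U
  have h3 := hV2 _ (interior_subset ha.2) _ (interior_subset hb.2)
  have h4 : f (a / b) = f a * (denseSeq N k)⁻¹ / (f b * (denseSeq N k)⁻¹) := by
    rw [map_div, mul_div_mul_right_eq_div]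
  rw [h4]
  exact h3

theorem key {G N : Type} [Group G] [TopologicalSpace G] [IsTopologicalGroup G] [PolishSpace G]
    [Group N] [TopologicalSpace N] [IsTopologicalGroup N] [PolishSpace N] [LocallyCompactSpace N]
    (ι : N →* G) (hι : Continuous ι) (hinj : Injective ι) (c : N →* N) (g : G)
    (hc : ∀ n, ι (c n) = g * ι n * g⁻¹) : Continuous c := by
  borelize G
  borelize N
  have e := hι.measurableEmbedding hinj
  apply auto c
  rw [← e.measurable_comp_iff]
  have h1 : (ι : N → G) ∘ (c : N → N) = fun n => g * ι n * g⁻¹ := funext hc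
  rw [h1]
  exact ((continuous_const.mul hι).mul continuous_const).measurable

end Pool.Agent.H742.LC.CJ

namespace Pool.Agent.H742.LC

theorem t_CJ : S_CJ := by
  intro G _ _ _ _ N hN τ h1 h2 h3 h4 g
  exact @CJ.key G N _ _ _ _ _ τ h1 h2 h3 N.subtype h4 Subtype.val_injective
    ((MulAut.conjNormal g : MulAut N) : N →* N) g (fun n => by
      show ((MulAut.conjNormal g n : N) : G) = g * n * g⁻¹
      exact MulAut.conjNormal_apply g n)

end Pool.Agent.H742.LC
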