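import Pool.Agent.H742.LC.Stm3

set_option autoImplicit false

noncomputable section

namespace Pool.Agent.H742.LC

namespace FIN

/-- the identity component for a given group topology -/
def cc {N : Type} [Group N] (τ : TopologicalSpace N) (h : @IsTopologicalGroup N τ _) : Subgroup N :=
  @Subgroup.connectedComponentOfOne N τ _ h

theorem mem_cc {N : Type} [Group N] (τ : TopologicalSpace N) (h : @IsTopologicalGroup N τ _) (x : N) :
    x ∈ cc τ h ↔ x ∈ @connectedComponent N τ 1 := Iff.rfl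

theorem image_cc {N : Type} [Group N] (τ : TopologicalSpace N) (f : N → N)
    (hf : @Continuous N N τ τ f) (h1 : f 1 = 1) (x : N) (hx : x ∈ @connectedComponent N τ 1) :
    f x ∈ @connectedComponent N τ 1 := by
  have h2 := @Continuous.image_connectedComponent_subset N N τ τ f hf 1
  rw [h1] at h2
  exact h2 ⟨x, hx, rfl⟩

theorem t2_of {N : Type} (τ : TopologicalSpace N) (h : @PolishSpace N τ) : @T2Space N τ := by
  let _ := τ
  have := h
  exact inferInstance

theorem sc_of {N : Type} (τ : TopologicalSpace N) (h : @PolishSpace N τ) :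
    @SecondCountableTopology N τ := by
  let _ := τ
  have := h
  exact inferInstance

end FIN

theorem t_FIN : S_VD → S_CJ → S_MAIN2 → S_FIN := by
  intro hVD hCJ hM2 G _ _ _ _ N hN τ hg hp hl hc hcl
  obtain ⟨K, Q, hK, hCK, hQ, hx⟩ := @hVD N _ τ hg (FIN.t2_of τ hp) hl
  obtain ⟨C, hC⟩ : ∃ C : Subgroup G, C = (FIN.cc τ hg).map N.subtype := ⟨_, rfl⟩
  have hmem : ∀ x : N, (x : G) ∈ C ↔ x ∈ @connectedComponent N τ 1 := by
    intro x
    rw [hC, Subgroup.mem_map]
    constructor
    · rintro ⟨n, hn, hnx⟩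
      have h1 : n = x := Subtype.ext hnx
      rw [← h1]
      exact hn
    · intro h
      exact ⟨x, h, rfl⟩
  have hCN : C ≤ N := by
    rw [hC]
    rintro _ ⟨n, _, rfl⟩
    exact n.2
  have hCn : C.Normal := by
    refine ⟨fun x hxC g => ?_⟩
    have h2 := (hmem ⟨x, hCN hxC⟩).1 hxC
    have h3 := FIN.image_cc τ (fun n => MulAut.conjNormal g n) (hCJ G N hN τ hg hp hl hc g)
      (map_one (MulAut.conjNormal g)) _ h2
    have h4 := (hmem (MulAut.conjNormal g ⟨x, hCN hxC⟩)).2 h3
    rw [MulAut.conjNormal_apply] at h4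
    exact h4
  have hCcl : IsClosed (C : Set G) := by
    have h1 : (C : Set G) = (Subtype.val : N → G) '' @connectedComponent N τ 1 := by
      rw [hC, Subgroup.coe_map]
      rfl
    rw [h1]
    exact hcl
  refine hM2 G N C hN hCn hCN hCcl ⟨τ, hg, FIN.sc_of τ hp, hc, K, Q, hK, fun x hxC => ?_, hQ, fun x hxK => ?_⟩
  · exact hCK ((hmem x).1 hxC)
  · obtain ⟨c, hc1, q, hq, hxq⟩ := hx x hxK
    exact ⟨c, (hmem c).2 hc1, q, hq, hxq⟩

end Pool.Agent.H742.LC
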