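import Pool.Agent.H742.LC.Stm

/-!
# The normalizer of a compact open subgroup is open
-/

set_option autoImplicit false

noncomputable section

namespace Pool.Agent.H742.LC.OPEN

open Topology Set Filter

/-- A closed subgroup of countable index in a Baire topological group is open. -/
lemma isOpen_of_countable_quotient {X : Type*} [Group X] [TopologicalSpace X]
    [IsTopologicalGroup X] [BaireSpace X] (H : Subgroup X) (hH : IsClosed (H : Set X))
    (hc : Countable (X ⧸ H)) : IsOpen (H : Set X) := by
  have key : ∀ g x : X, x ∈ ((QuotientGroup.mk : X → X ⧸ H) ⁻¹' {(g : X ⧸ H)}) ↔ g⁻¹ * x ∈ H := by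
    intro g x
    simp only [mem_preimage, mem_singleton_iff]
    rw [eq_comm, QuotientGroup.eq]
  have h1 : ∀ q : X ⧸ H, IsClosed ((QuotientGroup.mk : X → X ⧸ H) ⁻¹' {q}) := by
    intro q
    obtain ⟨g, rfl⟩ := QuotientGroup.mk_surjective q
    have : ((QuotientGroup.mk : X → X ⧸ H) ⁻¹' {(g : X ⧸ H)})
        = (fun x => g⁻¹ * x) ⁻¹' (H : Set X) := by
      ext x
      rw [key g x]
      rfl
    rw [this]
    exact hH.preimage (continuous_const.mul continuous_id)
  obtain ⟨q, x, hx⟩ := nonempty_interior_of_iUnion_of_closed h1 (by ext x; simp)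
  obtain ⟨g, rfl⟩ := QuotientGroup.mk_surjective q
  refine Subgroup.isOpen_of_mem_nhds H (g := 1) ?_
  have hW : (fun y => x * y) ⁻¹' (interior ((QuotientGroup.mk : X → X ⧸ H) ⁻¹' {(g : X ⧸ H)}))
      ∈ 𝓝 (1 : X) := by
    apply IsOpen.mem_nhds
    · exact isOpen_interior.preimage (continuous_const.mul continuous_id)
    · simpa using hx
  refine mem_of_superset hW ?_
  intro y hy
  have h2 := (key g _).1 (interior_subset hy)
  have h3 := (key g _).1 (interior_subset hx)
  have h4 : y = (g⁻¹ * x)⁻¹ * (g⁻¹ * (x * y)) := by group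
  show y ∈ H
  rw [h4]
  exact H.mul_mem (H.inv_mem h3) h2

/-- A second countable space has only countably many compact open subsets. -/
lemma countable_compact_open (X : Type*) [TopologicalSpace X] [SecondCountableTopology X] :
    {S : Set X | IsCompact S ∧ IsOpen S}.Countable := by
  have hB := TopologicalSpace.isBasis_countableBasis X
  have hBc := TopologicalSpace.countable_countableBasis X
  have : Countable (TopologicalSpace.countableBasis X) := hBc.to_subtype
  let b : TopologicalSpace.countableBasis X → Set X := fun s => s.1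
  have hb : TopologicalSpace.IsTopologicalBasis (Set.range b) := by
    have : Set.range b = TopologicalSpace.countableBasis X := Subtype.range_coe
    rw [this]
    exact hB
  have hfin : {s : Set (TopologicalSpace.countableBasis X) | s.Finite}.Countable :=
    Set.countable_ofPred_finite_subset (Set.countable_univ) |>.mono (by
      intro s hs
      exact ⟨hs, Set.subset_univ _⟩)
  refine (hfin.image (fun s => ⋃ i ∈ s, b i)).mono ?_
  rintro U ⟨hUc, hUo⟩
  obtain ⟨s, hs, hU⟩ := eq_finite_iUnion_of_isTopologicalBasis_of_isCompact_open b hb U hUc hUo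
  exact ⟨s, hs, hU.symm⟩

/-- The quotient of a second countable group by an open subgroup is countable. -/
lemma countable_quotient_of_open {A : Type*} [Group A] [TopologicalSpace A]
    [IsTopologicalGroup A] [SecondCountableTopology A] (K : Subgroup A)
    (hK : IsOpen (K : Set A)) : Countable (A ⧸ K) := by
  have : DiscreteTopology (A ⧸ K) := QuotientGroup.discreteTopology hK
  have : TopologicalSpace.SeparableSpace (A ⧸ K) :=
    (QuotientGroup.mk_surjective (s := K)).denseRange.separableSpace
      (QuotientGroup.continuous_mk)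
  exact TopologicalSpace.separableSpace_iff_countable.1 inferInstance

section
variable {G A : Type*} [Group G] [TopologicalSpace G] [IsTopologicalGroup G] [T2Space G]
  [Group A] [TopologicalSpace A] [IsTopologicalGroup A] [SecondCountableTopology A]

/-- conjugates of a compact open subgroup are compact and open -/
lemma conj_compact_open (i : A →* G) (hi : Function.Injective i) (hc : Continuous i)
    (s : G → A →* A) (hs : ∀ g a, i (s g a) = g * i a * g⁻¹)
    (K : Subgroup A) (hK : IsCompact (K : Set A)) (hKo : IsOpen (K : Set A)) (g : G) :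
    IsCompact (K.map (s g) : Set A) ∧ IsOpen (K.map (s g) : Set A) := by
  have : T2Space A := T2Space.of_injective_continuous hi hc
  have : LocallyCompactSpace A :=
    IsCompact.locallyCompactSpace_of_mem_nhds_of_group hK (x := 1) (hKo.mem_nhds K.one_mem)
  have hss : ∀ g a, s g (s g⁻¹ a) = a := by
    intro g a
    apply hi
    rw [hs, hs]
    group
  have hss' : ∀ g a, s g⁻¹ (s g a) = a := by
    intro g a
    apply hi
    rw [hs, hs]
    group
  have hmem : ∀ g a, a ∈ K.map (s g) ↔ s g⁻¹ a ∈ K := by
    intro g a
    constructor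
    · rintro ⟨b, hb, rfl⟩
      rw [hss']
      exact hb
    · intro h
      exact ⟨s g⁻¹ a, h, hss g a⟩
  have hKc : IsClosed ((K.map i : Subgroup G) : Set G) := by
    have : ((K.map i : Subgroup G) : Set G) = i '' (K : Set A) := rfl
    rw [this]
    exact (hK.image hc).isClosed
  -- openness of all conjugates
  have hopen : ∀ g, IsOpen (K.map (s g) : Set A) := by
    intro g
    apply isOpen_of_countable_quotient
    · have : ((K.map (s g) : Subgroup A) : Set A)
          = (fun a => g⁻¹ * i a * g) ⁻¹' ((K.map i : Subgroup G) : Set G) := by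
        ext a
        simp only [SetLike.mem_coe, mem_preimage]
        rw [hmem]
        constructor
        · intro h
          refine ⟨_, h, ?_⟩
          rw [hs]
          simp
        · rintro ⟨b, hb, hb'⟩
          have : b = s g⁻¹ a := by
            apply hi
            rw [hb', hs]
            simp
          rw [← this]
          exact hb
      rw [this]
      exact hKc.preimage ((continuous_const.mul hc).mul continuous_const)
    · have := countable_quotient_of_open K hKo
      -- the map a ↦ s g⁻¹ a induces an injection of quotients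
      let f : A ⧸ (K.map (s g)) → A ⧸ K :=
        Quotient.map' (s g⁻¹) (by
          intro a b hab
          rw [QuotientGroup.leftRel_apply] at hab ⊢
          rw [← map_inv, ← map_mul]
          exact (hmem g _).1 hab)
      have hf : Function.Injective f := by
        intro x y
        obtain ⟨a, rfl⟩ := QuotientGroup.mk_surjective x
        obtain ⟨b, rfl⟩ := QuotientGroup.mk_surjective y
        intro h
        have h2 : ((s g⁻¹ a : A) : A ⧸ K) = ((s g⁻¹ b : A) : A ⧸ K) := h
        rw [QuotientGroup.eq] at h2 ⊢
        rw [hmem, map_mul, map_inv]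
        exact h2
      exact hf.countable
  refine ⟨?_, hopen g⟩
  -- continuity of s g
  have hcont : Continuous (s g) := by
    apply continuous_of_continuousAt_one
    have hW : (K.map (s g⁻¹) : Set A) ∈ 𝓝 (1 : A) :=
      (hopen g⁻¹).mem_nhds (Subgroup.one_mem _)
    have : CompactSpace K := isCompact_iff_compactSpace.1 hK
    let f : K → G := fun x => i x.1
    have hfe : IsClosedEmbedding f := by
      apply Continuous.isClosedEmbedding (hc.comp continuous_subtype_val)
      intro x y hxy
      exact Subtype.ext (hi hxy)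
    have h1 : 𝓝 (1 : K) = comap f (𝓝 1) := by
      rw [hfe.isInducing.nhds_eq_comap]
      simp [f]
    rw [ContinuousAt, map_one]
    intro U hU
    have hU' : (Subtype.val : K → A) ⁻¹' U ∈ 𝓝 (1 : K) :=
      continuous_subtype_val.continuousAt.preimage_mem_nhds (by simpa using hU)
    rw [h1, mem_comap] at hU'
    obtain ⟨V, hV, hVU⟩ := hU'
    have h2 : (fun a => g * i a * g⁻¹) ⁻¹' V ∈ 𝓝 (1 : A) := by
      apply ((continuous_const.mul hc).mul continuous_const).continuousAt.preimage_mem_nhds
      simpa using hV
    rw [Filter.mem_map]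
    filter_upwards [hW, h2] with a ha ha2
    have h3 : s g a ∈ K := by
      have := (hmem g⁻¹ a).1 ha
      rwa [inv_inv] at this
    have h4 : (⟨s g a, h3⟩ : K) ∈ f ⁻¹' V := by
      show i (s g a) ∈ V
      rw [hs]
      exact ha2
    exact hVU h4
  have : ((K.map (s g) : Subgroup A) : Set A) = (s g) '' (K : Set A) := rfl
  rw [this]
  exact hK.image hcont

end

end Pool.Agent.H742.LC.OPEN

namespace Pool.Agent.H742.LC

open Topology Set Filter

theorem t_OPEN : S_OPEN := by
  intro G _ _ _ _ N K hN hK
  obtain ⟨τ, hτg, hτs, hτc, hKc, hKo⟩ := hK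
  -- the conjugation action on N
  let s : G → N →* N := fun g =>
    { toFun := fun a => ⟨g * a.1 * g⁻¹, hN.conj_mem a.1 a.2 g⟩
      map_one' := by
        apply Subtype.ext
        simp
      map_mul' := by
        intro a b
        apply Subtype.ext
        simp [mul_assoc] }
  have hs : ∀ g a, N.subtype (s g a) = g * N.subtype a * g⁻¹ := fun g a => rfl
  have hco : ∀ g, @IsCompact N τ (K.map (s g) : Set N) ∧ @IsOpen N τ (K.map (s g) : Set N) := by
    intro g
    exact @OPEN.conj_compact_open G N _ _ _ _ _ τ hτg hτs N.subtype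
      (Subgroup.subtype_injective N) hτc s hs K hKc hKo g
  have hcnt : {S : Set N | @IsCompact N τ S ∧ @IsOpen N τ S}.Countable :=
    @OPEN.countable_compact_open N τ hτs
  have hKG : IsClosed ((K.map N.subtype : Subgroup G) : Set G) := by
    have h1 : ((K.map N.subtype : Subgroup G) : Set G) = Subtype.val '' (K : Set N) := rfl
    rw [h1]
    exact (@IsCompact.image N G τ _ _ _ hKc hτc).isClosed
  have hcl : IsClosed (Nm N K : Set G) := by
    have h1 : (Nm N K : Set G) = (⋂ x ∈ (K.map N.subtype : Subgroup G),
        {g : G | g * x * g⁻¹ ∈ ((K.map N.subtype : Subgroup G) : Set G)}) ∩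
        (⋂ x ∈ (K.map N.subtype : Subgroup G),
        {g : G | g⁻¹ * x * g ∈ ((K.map N.subtype : Subgroup G) : Set G)}) := by
      ext g
      simp only [mem_inter_iff, mem_iInter, Set.mem_ofPred_eq, SetLike.mem_coe]
      constructor
      · intro h
        refine ⟨fun x hx => (h x).1 hx, fun x hx => (h _).2 ?_⟩
        have : g * (g⁻¹ * x * g) * g⁻¹ = x := by group
        rw [this]
        exact hx
      · rintro ⟨h1, h2⟩ x
        refine ⟨h1 x, fun hx => ?_⟩
        have := h2 _ hx
        have h3 : g⁻¹ * (g * x * g⁻¹) * g = x := by group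
        rwa [h3] at this
    rw [h1]
    apply IsClosed.inter
    · refine isClosed_biInter fun x _ => ?_
      exact hKG.preimage ((continuous_id.mul continuous_const).mul continuous_inv)
    · refine isClosed_biInter fun x _ => ?_
      exact hKG.preimage ((continuous_inv.mul continuous_const).mul continuous_id)
  apply OPEN.isOpen_of_countable_quotient _ hcl
  have : Countable {S : Set N | @IsCompact N τ S ∧ @IsOpen N τ S} := hcnt.to_subtype
  have hiff2 : ∀ g h : G, (K.map (s g) : Set N) = (K.map (s h) : Set N) → g⁻¹ * h ∈ Nm N K := by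
    intro g h heq
    have hA : ∀ x : G, x ∈ K.map N.subtype →
        g⁻¹ * h * x * (g⁻¹ * h)⁻¹ ∈ K.map N.subtype := by
      rintro _ ⟨b, hb, rfl⟩
      have h1 : s h b ∈ (K.map (s g) : Set N) := by
        rw [heq]
        exact ⟨b, hb, rfl⟩
      obtain ⟨c, hc, hc'⟩ := h1
      refine ⟨c, hc, ?_⟩
      have h2 : g * (c : G) * g⁻¹ = h * (b : G) * h⁻¹ := congrArg Subtype.val hc'
      show (c : G) = g⁻¹ * h * (b : G) * (g⁻¹ * h)⁻¹
      calc (c : G) = g⁻¹ * (g * (c : G) * g⁻¹) * g := by group
        _ = _ := by rw [h2]; group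
    have hB : ∀ x : G, x ∈ K.map N.subtype →
        h⁻¹ * g * x * (h⁻¹ * g)⁻¹ ∈ K.map N.subtype := by
      rintro _ ⟨b, hb, rfl⟩
      have h1 : s g b ∈ (K.map (s h) : Set N) := by
        rw [← heq]
        exact ⟨b, hb, rfl⟩
      obtain ⟨c, hc, hc'⟩ := h1
      refine ⟨c, hc, ?_⟩
      have h2 : h * (c : G) * h⁻¹ = g * (b : G) * g⁻¹ := congrArg Subtype.val hc'
      show (c : G) = h⁻¹ * g * (b : G) * (h⁻¹ * g)⁻¹
      calc (c : G) = h⁻¹ * (h * (c : G) * h⁻¹) * h := by group
        _ = _ := by rw [h2]; group
    intro x
    refine ⟨hA x, fun hx => ?_⟩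
    have h3 := hB _ hx
    have h4 : h⁻¹ * g * (g⁻¹ * h * x * (g⁻¹ * h)⁻¹) * (h⁻¹ * g)⁻¹ = x := by group
    rwa [h4] at h3
  let f : G ⧸ Nm N K → {S : Set N | @IsCompact N τ S ∧ @IsOpen N τ S} :=
    fun q => ⟨(K.map (s q.out) : Set N), hco _⟩
  have hf : Function.Injective f := by
    intro x y hxy
    have h1 : (K.map (s x.out) : Set N) = (K.map (s y.out) : Set N) := congrArg Subtype.val hxy
    have h2 := hiff2 _ _ h1
    rw [← QuotientGroup.eq] at h2
    rwa [QuotientGroup.out_eq', QuotientGroup.out_eq'] at h2
  exact hf.countable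

end Pool.Agent.H742.LC
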