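import Pool.Agent.H742.LC.Stm3

set_option autoImplicit false

open Topology Set Pointwise

noncomputable section

namespace Pool.Agent.H742.LC

namespace VD

variable (N : Type) [Group N] [TopologicalSpace N] [IsTopologicalGroup N]

/-- the identity component -/
abbrev N0 : Subgroup N := Subgroup.connectedComponentOfOne N

instance normal0 : (N0 N).Normal := by
  constructor
  intro n hn g
  have hc : Continuous (fun x : N => g * x * g⁻¹) := by fun_prop
  have h := hc.image_connectedComponent_subset 1 ⟨n, hn, rfl⟩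
  have e : g * 1 * g⁻¹ = 1 := by group
  simp only [e] at h
  exact h

instance closed0 : IsClosed (N0 N : Set N) := isClosed_connectedComponent

theorem fib (t : N ⧸ N0 N) : IsConnected ((QuotientGroup.mk : N → N ⧸ N0 N) ⁻¹' {t}) := by
  obtain ⟨a, rfl⟩ := QuotientGroup.mk_surjective t
  have h1 : (QuotientGroup.mk : N → N ⧸ N0 N) ⁻¹' {QuotientGroup.mk a} =
      (fun x => a * x) '' connectedComponent (1 : N) := by
    ext x
    constructor
    · intro hx
      have hx' : (QuotientGroup.mk a : N ⧸ N0 N) = QuotientGroup.mk x := (Set.mem_singleton_iff.1 hx).symm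
      have h2 := QuotientGroup.eq.1 hx'
      exact ⟨a⁻¹ * x, h2, by simp⟩
    · rintro ⟨c, hc, rfl⟩
      refine Set.mem_singleton_iff.2 ?_
      symm
      refine QuotientGroup.eq.2 ?_
      have e : a⁻¹ * (a * c) = c := by group
      simp only [e]
      exact hc
  rw [h1]
  exact isConnected_connectedComponent.image _ (by fun_prop)

instance totdisc : TotallyDisconnectedSpace (N ⧸ N0 N) := by
  rw [totallyDisconnectedSpace_iff_connectedComponent_one]
  apply Set.Subset.antisymm
  · intro y hy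
    obtain ⟨b, rfl⟩ := QuotientGroup.mk_surjective y
    have h := (QuotientGroup.isQuotientMap_mk (N := N0 N)).isCoinducing.preimage_connectedComponent (fib N) (1 : N)
    have h2 : b ∈ connectedComponent (1 : N) := by
      rw [← h]
      exact hy
    exact (QuotientGroup.eq_one_iff b).2 h2
  · rintro _ rfl
    exact mem_connectedComponent

variable {P : Type} [Group P] [TopologicalSpace P] [IsTopologicalGroup P]

/-- van Dantzig -/
theorem vanD [T2Space P] [LocallyCompactSpace P] [TotallyDisconnectedSpace P] :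
    ∃ H : Subgroup P, IsOpen (H : Set P) ∧ IsCompact (H : Set P) := by
  obtain ⟨B, hB, hB1⟩ := exists_compact_mem_nhds (1 : P)
  obtain ⟨W, hW, hW1, hWB⟩ := (loc_compact_Haus_tot_disc_of_zero_dim (H := P)).mem_nhds_iff.1 hB1
  have hWc : IsCompact W := hB.of_isClosed_subset hW.1 hWB
  obtain ⟨V, hV, hVW⟩ := compact_open_separated_mul_right hWc hW.2 (Subset.refl W)
  set S : Set P := V ∩ V⁻¹ with hS
  have hS1 : S ∈ 𝓝 (1 : P) := Filter.inter_mem hV (inv_mem_nhds_one P hV)
  have key : ∀ h ∈ Subgroup.closure S, ∀ w ∈ W, w * h ∈ W ∧ w * h⁻¹ ∈ W := by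
    intro h hh
    induction hh using Subgroup.closure_induction with
    | mem x hx =>
      intro w hw
      exact ⟨hVW (mul_mem_mul hw hx.1), hVW (mul_mem_mul hw hx.2)⟩
    | one =>
      intro w hw
      simp [hw]
    | mul x y _ _ hx hy =>
      intro w hw
      refine ⟨?_, ?_⟩
      · rw [← mul_assoc]
        exact (hy _ (hx w hw).1).1
      · rw [mul_inv_rev, ← mul_assoc]
        exact (hx _ (hy w hw).2).2
    | inv x _ hx =>
      intro w hw
      rw [inv_inv]
      exact ⟨(hx w hw).2, (hx w hw).1⟩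
  have hopen : IsOpen (Subgroup.closure S : Set P) :=
    Subgroup.isOpen_of_mem_nhds _ (Filter.mem_of_superset hS1 Subgroup.subset_closure)
  refine ⟨Subgroup.closure S, hopen, ?_⟩
  refine hWc.of_isClosed_subset (Subgroup.isClosed_of_isOpen _ hopen) ?_
  intro h hh
  have h1 := (key h hh 1 hW1).1
  rwa [one_mul] at h1

end VD

open VD

theorem t_VD : S_VD := by
  intro N _ _ _ _ _
  obtain ⟨H, hHo, hHc⟩ := vanD (P := N ⧸ N0 N)
  have hq : IsOpenQuotientMap (QuotientGroup.mk : N → N ⧸ N0 N) := QuotientGroup.isOpenQuotientMap_mk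
  obtain ⟨B, hB, hB1⟩ := exists_compact_mem_nhds (1 : N)
  have hn : ∀ y ∈ (H : Set (N ⧸ N0 N)),
      (fun z => y * z) '' ((QuotientGroup.mk : N → N ⧸ N0 N) '' B) ∈ 𝓝 y := by
    intro y _
    have h1 : (QuotientGroup.mk : N → N ⧸ N0 N) '' B ∈ 𝓝 (1 : N ⧸ N0 N) :=
      hq.isOpenMap.image_mem_nhds hB1
    have h2 := (Homeomorph.mulLeft y).isOpenMap.image_mem_nhds h1
    have e : (Homeomorph.mulLeft y) 1 = y := by simp
    rw [e] at h2
    exact h2
  obtain ⟨t, _, ht2⟩ := hHc.elim_nhds_subcover _ hn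
  refine ⟨H.comap (QuotientGroup.mk' (N0 N)), ⋃ y ∈ t, (fun z => y.out * z) '' B, ?_, ?_, ?_, ?_⟩
  · exact hHo.preimage hq.continuous
  · intro c hc
    have h1 : (QuotientGroup.mk c : N ⧸ N0 N) = 1 := (QuotientGroup.eq_one_iff c).2 hc
    show (QuotientGroup.mk c : N ⧸ N0 N) ∈ H
    rw [h1]
    exact H.one_mem
  · exact t.isCompact_biUnion fun y _ => hB.image (by fun_prop)
  · intro x hx
    have hx' : (QuotientGroup.mk x : N ⧸ N0 N) ∈ (H : Set (N ⧸ N0 N)) := hx
    obtain ⟨y, hy, z, ⟨b, hb, rfl⟩, hz⟩ := by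
      simpa only [Set.mem_iUnion, exists_prop] using ht2 hx'
    have hy' : (QuotientGroup.mk (y.out * b) : N ⧸ N0 N) = QuotientGroup.mk x := by
      rw [← hz]
      show (QuotientGroup.mk (y.out) : N ⧸ N0 N) * QuotientGroup.mk b = y * QuotientGroup.mk b
      congr 1
      exact Quotient.out_eq' y
    have h3 := QuotientGroup.eq.1 hy'
    refine ⟨(y.out * b) * ((y.out * b)⁻¹ * x) * (y.out * b)⁻¹, ?_, y.out * b, ?_, by group⟩
    · exact (normal0 N).conj_mem _ h3 _
    · exact Set.mem_biUnion hy ⟨b, hb, rfl⟩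

end Pool.Agent.H742.LC
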