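import Mathlib

/-!
# Locally compactable normal subgroups with a compact open subgroup: statements
-/

set_option autoImplicit false

noncomputable section

namespace Pool.Agent.H742.LC

/-- `N` has a second countable group topology, finer than the subspace topology, for which the
subgroup `K` is compact and open. -/
def CompactOpen {G : Type} [Group G] [TopologicalSpace G] (N : Subgroup G) (K : Subgroup N) :
    Prop :=
  ∃ τ : TopologicalSpace N, @IsTopologicalGroup N τ _ ∧ @SecondCountableTopology N τ ∧
    @Continuous N G τ _ Subtype.val ∧ @IsCompact N τ (K : Set N) ∧ @IsOpen N τ (K : Set N)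

/-- the elements of `G` which normalize `K` -/
def Nm {G : Type} [Group G] (N : Subgroup G) (K : Subgroup N) : Subgroup G where
  carrier := {g | ∀ x : G, x ∈ K.map N.subtype ↔ g * x * g⁻¹ ∈ K.map N.subtype}
  mul_mem' := by
    intro a b ha hb x
    rw [hb x, ha (b * x * b⁻¹)]
    have : a * b * x * (a * b)⁻¹ = a * (b * x * b⁻¹) * a⁻¹ := by group
    rw [this]
  one_mem' := by intro x; simp
  inv_mem' := by
    intro a ha x
    rw [ha (a⁻¹ * x * a⁻¹⁻¹)]
    have : a * (a⁻¹ * x * a⁻¹⁻¹) * a⁻¹ = x := by group
    rw [this]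

/-- the normalizer of `K` in `G` is open -/
def S_OPEN : Prop := ∀ (G : Type) [Group G] [TopologicalSpace G] [IsTopologicalGroup G]
  [PolishSpace G] (N : Subgroup G) (K : Subgroup N), N.Normal → CompactOpen N K →
  IsOpen (Nm N K : Set G)

/-- quotients of Polish groups by compact normal subgroups are Polish -/
def S_POLQ : Prop := ∀ (G : Type) [Group G] [TopologicalSpace G] [IsTopologicalGroup G]
  [PolishSpace G] (K : Subgroup G) [K.Normal], IsCompact (K : Set G) → PolishSpace (G ⧸ K)

/-- The main theorem. -/
def S_MAIN : Prop := ∀ (G : Type) [Group G] [TopologicalSpace G] [IsTopologicalGroup G]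
  [PolishSpace G] (N : Subgroup G) (K : Subgroup N), N.Normal → CompactOpen N K →
  ∃ (H : Type) (_ : Group H) (_ : TopologicalSpace H) (M : Subgroup H) (h : G → H),
    IsTopologicalGroup H ∧ PolishSpace H ∧ M.Normal ∧ Countable M ∧ Continuous h ∧
    ∀ x y : G, x⁻¹ * y ∈ N ↔ (h x)⁻¹ * h y ∈ M

end Pool.Agent.H742.LC
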