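import Pool.Agent.H742.LC.Stm

/-!
# Locally compactable normal subgroups whose identity component is closed: statements
-/

set_option autoImplicit false

noncomputable section

namespace Pool.Agent.H742.LC

/-- `N` has a second countable group topology, finer than the subspace topology, with an open
subgroup `K` which contains the subgroup `C` and is compact modulo `C`: it is the product of `C`
and of a compact set. -/
def CompactOpenMod {G : Type} [Group G] [TopologicalSpace G] (N C : Subgroup G) : Prop :=
  ∃ τ : TopologicalSpace N, @IsTopologicalGroup N τ _ ∧ @SecondCountableTopology N τ ∧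
    @Continuous N G τ _ Subtype.val ∧ ∃ (K : Subgroup N) (Q : Set N), @IsOpen N τ (K : Set N) ∧
      (∀ x : N, (x : G) ∈ C → x ∈ K) ∧ @IsCompact N τ Q ∧
      ∀ x ∈ K, ∃ c : N, (c : G) ∈ C ∧ ∃ q ∈ Q, x = c * q

/-- quotients of Polish groups by closed normal subgroups are Polish -/
def S_QP : Prop := ∀ (G : Type) [Group G] [TopologicalSpace G] [IsTopologicalGroup G]
  [PolishSpace G] (C : Subgroup G) [C.Normal], IsClosed (C : Set G) → PolishSpace (G ⧸ C)

/-- The stronger form of the main theorem. -/
def S_MAIN2 : Prop := ∀ (G : Type) [Group G] [TopologicalSpace G] [IsTopologicalGroup G]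
  [PolishSpace G] (N C : Subgroup G), N.Normal → C.Normal → C ≤ N → IsClosed (C : Set G) →
  CompactOpenMod N C →
  ∃ (H : Type) (_ : Group H) (_ : TopologicalSpace H) (M : Subgroup H) (h : G → H),
    IsTopologicalGroup H ∧ PolishSpace H ∧ M.Normal ∧ Countable M ∧ Continuous h ∧
    ∀ x y : G, x⁻¹ * y ∈ N ↔ (h x)⁻¹ * h y ∈ M

end Pool.Agent.H742.LC
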