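import Pool.Agent.H742.LC.Stm2

/-!
# Locally compactable normal subgroups whose identity component is closed: statements
-/

set_option autoImplicit false

noncomputable section

namespace Pool.Agent.H742.LC

/-- van Dantzig's theorem modulo the identity component -/
def S_VD : Prop := ∀ (N : Type) [Group N] [TopologicalSpace N] [IsTopologicalGroup N] [T2Space N]
  [LocallyCompactSpace N], ∃ (K : Subgroup N) (Q : Set N), IsOpen (K : Set N) ∧
    connectedComponent (1 : N) ⊆ (K : Set N) ∧ IsCompact Q ∧
    ∀ x ∈ K, ∃ c ∈ connectedComponent (1 : N), ∃ q ∈ Q, x = c * q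

/-- conjugations are continuous for the topology of `N` -/
def S_CJ : Prop := ∀ (G : Type) [Group G] [TopologicalSpace G] [IsTopologicalGroup G]
  [PolishSpace G] (N : Subgroup G) (_ : N.Normal) (τ : TopologicalSpace N),
  @IsTopologicalGroup N τ _ → @PolishSpace N τ → @LocallyCompactSpace N τ →
  @Continuous N G τ _ Subtype.val → ∀ g : G, @Continuous N N τ τ (fun n => MulAut.conjNormal g n)

/-- **The theorem.** Let `N` be a normal subgroup of a Polish group `G` with a locally compact
Polish group topology `τ` for which the inclusion is continuous (`N` is locally compactable), and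
suppose that the identity component of `N` is a closed subset of `G` (for instance, `N` is totally
disconnected). Then the coset relation of `N` is continuously reducible to the coset relation of a
countable normal subgroup `M` of a Polish group `H`. -/
def S_FIN : Prop := ∀ (G : Type) [Group G] [TopologicalSpace G] [IsTopologicalGroup G]
  [PolishSpace G] (N : Subgroup G), N.Normal → ∀ τ : TopologicalSpace N,
  @IsTopologicalGroup N τ _ → @PolishSpace N τ → @LocallyCompactSpace N τ →
  @Continuous N G τ _ Subtype.val →
  IsClosed ((Subtype.val : N → G) '' @connectedComponent N τ 1) →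
  ∃ (H : Type) (_ : Group H) (_ : TopologicalSpace H) (M : Subgroup H) (h : G → H),
    IsTopologicalGroup H ∧ PolishSpace H ∧ M.Normal ∧ Countable M ∧ Continuous h ∧
    ∀ x y : G, x⁻¹ * y ∈ N ↔ (h x)⁻¹ * h y ∈ M

end Pool.Agent.H742.LC
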